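import Pool.Agent.Y325.BG.Defs

/-!
# The von Neumann algebra generated by a star-closed set of operators
-/

set_option autoImplicit false

namespace Pool.Agent.Y325.BG

universe u v

variable {𝓗 : Type v} [NormedAddCommGroup 𝓗] [InnerProductSpace ℂ 𝓗] [CompleteSpace 𝓗]

theorem star_centralizer {T : Set (𝓗 →L[ℂ] 𝓗)} (hT : ∀ x ∈ T, star x ∈ T)
    {x : 𝓗 →L[ℂ] 𝓗} (hx : x ∈ Set.centralizer T) : star x ∈ Set.centralizer T := by
  rw [Set.mem_centralizer_iff] at *
  intro y hy
  have := congrArg star (hx _ (hT y hy))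
  rw [star_mul, star_mul, star_star] at this
  exact this.symm

theorem exists_vN {T : Set (𝓗 →L[ℂ] 𝓗)} (hT : ∀ x ∈ T, star x ∈ T) :
    ∃ N : VonNeumannAlgebra 𝓗, (N : Set (𝓗 →L[ℂ] 𝓗)) = Set.centralizer (Set.centralizer T) := by
  have h1 : Set.centralizer T ∪ star (Set.centralizer T) = Set.centralizer T := by
    apply Set.Subset.antisymm
    · rintro x (hx | hx)
      · exact hx
      · rw [Set.mem_star] at hx
        have := star_centralizer hT hx
        rwa [star_star] at this
    · exact Set.subset_union_left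
  have h2 : ((StarSubalgebra.centralizer ℂ (Set.centralizer T) :
      StarSubalgebra ℂ (𝓗 →L[ℂ] 𝓗)) : Set (𝓗 →L[ℂ] 𝓗)) =
      Set.centralizer (Set.centralizer T) := by
    rw [StarSubalgebra.coe_centralizer, h1]
  refine ⟨{ toStarSubalgebra := StarSubalgebra.centralizer ℂ (Set.centralizer T)
            centralizer_centralizer' := ?_ }, h2⟩
  have h3 : (StarSubalgebra.centralizer ℂ (Set.centralizer T) :
      StarSubalgebra ℂ (𝓗 →L[ℂ] 𝓗)).carrier = Set.centralizer (Set.centralizer T) := h2
  rw [h3, Set.centralizer_centralizer_centralizer]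

end Pool.Agent.Y325.BG
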