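import Pool.Agent.Y325.BG.Chain

/-!
# The `b`-Gaussian von Neumann algebras: averages of `Y_i Y_0 Y_i`
-/

set_option autoImplicit false

open Filter Topology

namespace Pool.Agent.Y325.BG

universe u v

variable {𝓗 : Type v} [NormedAddCommGroup 𝓗] [InnerProductSpace ℂ 𝓗] [CompleteSpace 𝓗]
variable {E : Type u} [NormedAddCommGroup E] [InnerProductSpace ℝ E]
variable {M : VonNeumannAlgebra 𝓗} {Ω : 𝓗} {S U : E → 𝓗 →L[ℂ] 𝓗}

/-- averages tend to zero -/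
def AvgZ (F : ℕ → 𝓗) : Prop :=
  Tendsto (fun n : ℕ => ((n : ℂ))⁻¹ • ∑ i ∈ Finset.range n, F i) atTop (𝓝 0)

theorem AvgZ.add {F G : ℕ → 𝓗} (hF : AvgZ F) (hG : AvgZ G) : AvgZ (fun i => F i + G i) := by
  have := Tendsto.add hF hG
  rw [add_zero] at this
  refine this.congr fun n => ?_
  rw [Finset.sum_add_distrib, smul_add]

theorem AvgZ.smul {F : ℕ → 𝓗} (c : ℂ) (hF : AvgZ F) : AvgZ (fun i => c • F i) := by
  have := Tendsto.const_smul hF c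
  rw [smul_zero] at this
  refine this.congr fun n => ?_
  rw [← Finset.smul_sum, smul_comm]

theorem norm_le_of_inner {x : 𝓗} (hx : inner ℂ x x = (1 : ℂ)) : ‖x‖ ≤ 1 := by
  have h1 : ((‖x‖ : ℂ)) ^ 2 = 1 := by
    rw [← hx, inner_self_eq_norm_sq_to_K]
    rfl
  have h2 : ‖x‖ ^ 2 = 1 := by exact_mod_cast h1
  nlinarith [norm_nonneg x]

theorem AvgZ.of_gram (hAvg : StmAvg.{v}) {F : ℕ → 𝓗}
    (h1 : ∀ i j, inner ℂ (F i) (F j) = if i = j then (1 : ℂ) else 0) : AvgZ F := by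
  refine hAvg F 1 (fun i => norm_le_of_inner ?_) (fun i j hij => ?_)
  · rw [h1, if_pos rfl]
  · rw [h1, if_neg hij]

theorem gram_of {F : ℕ → 𝓗} (h1 : ∀ i, inner ℂ (F i) (F i) = (1 : ℂ))
    (h2 : ∀ i j, i ≠ j → inner ℂ (F i) (F j) = (0 : ℂ)) (i j : ℕ) :
    inner ℂ (F i) (F j) = if i = j then (1 : ℂ) else 0 := by
  split_ifs with h
  · rw [h]; exact h1 j
  · exact h2 i j h

/-- the eight families -/
theorem families (hR : StmR.{v}) (hdom : StmDom.{u, v}) (hder : StmDer.{u, v})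
    (hker : StmKer.{u, v}) (hGL : StmGL.{u, v}) (hV2 : StmVA2.{u, v}) (hV3 : StmVA3.{u, v})
    (hW : StmWick.{u, v}) (hAvg : StmAvg.{v})
    (h : Realisation M Ω S U) {e : ℕ → E} (he : Orthonormal ℝ e) :
    ∃ (γ ρ θ κ : ℕ → 𝓗) (R1 R2 : ℕ → 𝓗 →L[ℂ] 𝓗),
      (∀ i, Gen U (e i) Ω (γ i)) ∧ (∀ i, Gen U (e (i + 1)) (γ 0) (ρ i)) ∧
      (∀ i, Gen U (e 0) (γ (i + 1)) (ρ i)) ∧ (∀ i, Gen U (e (i + 1)) (ρ i) (θ i)) ∧
      (∀ i, Gen U (e (i + 1)) (S (e 0) (γ (i + 1))) (κ i)) ∧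
      (∀ i, R1 i Ω = S (e (i + 1)) Ω) ∧ (∀ i, ∀ x ∈ M, R1 i * x = x * R1 i) ∧
      (∀ i, R2 i Ω = S (e 0) (S (e (i + 1)) Ω)) ∧ (∀ i, ∀ x ∈ M, R2 i * x = x * R2 i) ∧
      AvgZ (fun i => S (e (i + 1)) (S (e 0) (S (e (i + 1)) Ω))) ∧
      AvgZ (fun i => S (e (i + 1)) (S (e 0) (γ (i + 1)))) ∧
      AvgZ (fun i => S (e (i + 1)) (R1 i (γ 0))) ∧
      AvgZ (fun i => S (e (i + 1)) (ρ i)) ∧
      AvgZ (fun i => R2 i (γ (i + 1))) ∧
      AvgZ κ ∧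
      AvgZ (fun i => R1 i (ρ i)) ∧
      AvgZ (fun i => θ i - γ 0) := by
  obtain ⟨γ, hγ, hγΩ, hγ1, hγ0⟩ := exists_gamma hGL h he
  obtain ⟨ρ, θ, hρ, hθ, hργ, hρ1, hρ0, hθ0, hθ2⟩ := exists_rho hker hGL h he hγ
  obtain ⟨κ, hκ, hκ1, hκ0⟩ := exists_kappa hdom hder hker hV3 h he hγ hγ1 hγ0
  obtain ⟨w1, w2, w3, w4, w5⟩ := hW h he
  have hρ' : ∀ i, Gen U (e 0) (γ (i + 1)) (ρ i) := fun i =>
    gen_gamma_rho hR hdom hker h (he.1 0) (he.1 (i + 1)) (he.2 (by omega)) (hγ 0) (hγ (i + 1)) (hρ i)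
  have hS0 : ∀ f, star (S f) = S f := fun f => (h.S_sa f).star_eq
  choose R1 hR1 hR1M using fun i : ℕ => hR h.cyclic h.tracial (h.S_mem (e (i + 1)))
  choose R2 hR2 hR2M using fun i : ℕ => hR h.cyclic h.tracial
    (mul_mem (h.S_mem (e 0)) (h.S_mem (e (i + 1))))
  have hVγ : ∀ i, γ i ∈ VA Ω U := fun i => (hγ i).mem_VA Omega_mem
  have hVρ : ∀ i, ρ i ∈ VA Ω U := fun i => (hρ i).mem_VA (hVγ 0)
  have hΩρ : ∀ i, inner ℂ Ω (ρ i) = 0 := by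
    intro i
    rw [(hρ i).symm h.U_star (hγ (i + 1))]
    exact hγ0 _ _ (by omega)
  have hΩΩ : inner ℂ Ω Ω = (1 : ℂ) := by
    rw [inner_self_eq_norm_sq_to_K, h.norm_Ω]; simp
  have tr1 : tr Ω (1 : 𝓗 →L[ℂ] 𝓗) = 1 := by
    rw [tr, one_apply_eq_self, hΩΩ]
  have B1 : (1 : 𝓗 →L[ℂ] 𝓗) ∈ Algebra.adjoin ℂ (Set.range S) := one_mem _
  have R1c : ∀ x ∈ M, (1 : 𝓗 →L[ℂ] 𝓗) * x = x * 1 := fun x _ => by rw [one_mul, mul_one]
  have f1 : AvgZ (fun i => S (e (i + 1)) (S (e 0) (S (e (i + 1)) Ω))) := by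
    refine AvgZ.of_gram hAvg fun i j => ?_
    have h1 := hV2 h Omega_mem Omega_mem (mul_mem (S_adj (S := S) (e (i + 1))) (S_adj (e 0)))
      (mul_mem (S_adj (S := S) (e (j + 1))) (S_adj (e 0))) (S_adj (e (i + 1))) (S_adj (e (j + 1)))
      (hR1 i) (hR1 j) (hR1M i) (hR1M j)
    rw [star_mul, hS0, hS0, w5 _ _ (by omega) (by omega), hΩΩ, mul_one, mul_one, sub_self,
      mul_zero, add_zero, hR1, hR1, mul_apply_eq_comp, mul_apply_eq_comp] at h1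
    rw [h1]
    simp
  have f2 : AvgZ (fun i => S (e (i + 1)) (S (e 0) (γ (i + 1)))) := by
    refine AvgZ.of_gram hAvg (gram_of (fun i => ?_) fun i j hij => ?_)
    · have h1 := hV2 h (hVγ (i + 1)) (hVγ (i + 1))
        (mul_mem (S_adj (S := S) (e (i + 1))) (S_adj (e 0)))
        (mul_mem (S_adj (S := S) (e (i + 1))) (S_adj (e 0))) B1 B1 (R := 1) (R' := 1) rfl rfl
        R1c R1c
      rw [star_mul, hS0, hS0, star_one, one_mul, tr1, hγΩ, hγ1, w4 _ (by omega)] at h1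
      simpa [mul_apply_eq_comp] using h1
    · have h1 := hV2 h (hVγ (i + 1)) (hVγ (j + 1))
        (mul_mem (S_adj (S := S) (e (i + 1))) (S_adj (e 0)))
        (mul_mem (S_adj (S := S) (e (j + 1))) (S_adj (e 0))) B1 B1 (R := 1) (R' := 1) rfl rfl
        R1c R1c
      rw [hγΩ, hγ0 _ _ (by omega)] at h1
      simpa [mul_apply_eq_comp] using h1
  have f3 : AvgZ (fun i => S (e (i + 1)) (R1 i (γ 0))) := by
    refine AvgZ.of_gram hAvg fun i j => ?_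
    have h1 := hV2 h (hVγ 0) (hVγ 0) (S_adj (S := S) (e (i + 1))) (S_adj (e (j + 1)))
      (S_adj (e (i + 1))) (S_adj (e (j + 1))) (hR1 i) (hR1 j) (hR1M i) (hR1M j)
    rw [hS0, w2, w2, hγΩ, hγ1] at h1
    rw [h1]
    by_cases hij : i = j
    · simp [hij]
    · simp [hij]
  have f4 : AvgZ (fun i => S (e (i + 1)) (ρ i)) := by
    refine AvgZ.of_gram hAvg (gram_of (fun i => ?_) fun i j hij => ?_)
    · have h1 := hV2 h (hVρ i) (hVρ i) (S_adj (S := S) (e (i + 1))) (S_adj (e (i + 1))) B1 B1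
        (R := 1) (R' := 1) rfl rfl R1c R1c
      rw [hS0, w2, star_one, one_mul, tr1, hΩρ, hρ1] at h1
      simpa using h1
    · have h1 := hV2 h (hVρ i) (hVρ j) (S_adj (S := S) (e (i + 1))) (S_adj (e (j + 1))) B1 B1
        (R := 1) (R' := 1) rfl rfl R1c R1c
      rw [hΩρ, hρ0 _ _ hij] at h1
      simpa using h1
  have f5 : AvgZ (fun i => R2 i (γ (i + 1))) := by
    refine AvgZ.of_gram hAvg (gram_of (fun i => ?_) fun i j hij => ?_)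
    · have h1 := hV2 h (hVγ (i + 1)) (hVγ (i + 1)) B1 B1
        (mul_mem (S_adj (S := S) (e 0)) (S_adj (e (i + 1))))
        (mul_mem (S_adj (S := S) (e 0)) (S_adj (e (i + 1)))) (hR2 i) (hR2 i) (hR2M i) (hR2M i)
      rw [star_mul, hS0, hS0, star_one, one_mul, tr1, hγΩ, hγ1, w4 _ (by omega)] at h1
      simpa using h1
    · have h1 := hV2 h (hVγ (i + 1)) (hVγ (j + 1)) B1 B1
        (mul_mem (S_adj (S := S) (e 0)) (S_adj (e (i + 1))))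
        (mul_mem (S_adj (S := S) (e 0)) (S_adj (e (j + 1)))) (hR2 i) (hR2 j) (hR2M i) (hR2M j)
      rw [hγΩ, hγ0 _ _ (by omega)] at h1
      simpa using h1
  have f7 : AvgZ (fun i => R1 i (ρ i)) := by
    refine AvgZ.of_gram hAvg (gram_of (fun i => ?_) fun i j hij => ?_)
    · have h1 := hV2 h (hVρ i) (hVρ i) B1 B1 (S_adj (S := S) (e (i + 1))) (S_adj (e (i + 1)))
        (hR1 i) (hR1 i) (hR1M i) (hR1M i)
      rw [hS0, w2, star_one, one_mul, tr1, hΩρ, hρ1] at h1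
      simpa using h1
    · have h1 := hV2 h (hVρ i) (hVρ j) B1 B1 (S_adj (S := S) (e (i + 1))) (S_adj (e (j + 1)))
        (hR1 i) (hR1 j) (hR1M i) (hR1M j)
      rw [hΩρ, hρ0 _ _ hij] at h1
      simpa using h1
  exact ⟨γ, ρ, θ, κ, R1, R2, hγ, hρ, hρ', hθ, hκ, hR1, hR1M,
    fun i => by rw [hR2, mul_apply_eq_comp], hR2M, f1, f2, f3, f4, f5,
    AvgZ.of_gram hAvg (gram_of hκ1 hκ0), f7, hAvg _ 2 hθ2 hθ0⟩

end Pool.Agent.Y325.BG
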