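import Pool.Agent.Y325.BG.Stm

/-!
# The `b`-Gaussian von Neumann algebras: elementary facts about the generators
-/

set_option autoImplicit false

open Filter Topology

namespace Pool.Agent.Y325.BG

universe u v

variable {𝓗 : Type v} [NormedAddCommGroup 𝓗] [InnerProductSpace ℂ 𝓗] [CompleteSpace 𝓗]
variable {E : Type u} [NormedAddCommGroup E] [InnerProductSpace ℝ E]
variable {M : VonNeumannAlgebra 𝓗} {Ω : 𝓗} {S U : E → 𝓗 →L[ℂ] 𝓗}

theorem Gen.unique {f : E} {ξ η η' : 𝓗} (h : Gen U f ξ η) (h' : Gen U f ξ η') : η = η' :=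
  tendsto_nhds_unique h h'

theorem Gen.add {f : E} {ξ η ξ' η' : 𝓗} (h : Gen U f ξ η) (h' : Gen U f ξ' η') :
    Gen U f (ξ + ξ') (η + η') := by
  refine (Tendsto.add h h').congr fun t => ?_
  rw [map_add, ← smul_add]
  congr 1
  abel

theorem Gen.smul {f : E} {ξ η : 𝓗} (c : ℂ) (h : Gen U f ξ η) : Gen U f (c • ξ) (c • η) := by
  refine (Tendsto.const_smul h c).congr fun t => ?_
  rw [map_smul, ← smul_sub, smul_comm]

theorem Gen.map {f : E} {ξ η : 𝓗} (R : 𝓗 →L[ℂ] 𝓗) (hR : ∀ g, R * U g = U g * R)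
    (h : Gen U f ξ η) : Gen U f (R ξ) (R η) := by
  refine ((R.continuous.tendsto η).comp h).congr fun t => ?_
  have h1 : R (U (t • f) ξ) = U (t • f) (R ξ) := by
    have := congrArg (fun T : 𝓗 →L[ℂ] 𝓗 => T ξ) (hR (t • f))
    simpa using this
  rw [Function.comp_apply, map_smul, map_sub, h1]

theorem tendsto_neg_ne : Tendsto (fun t : ℝ => -t) (𝓝[≠] 0) (𝓝[≠] 0) := by
  refine tendsto_nhdsWithin_iff.2 ⟨?_, ?_⟩
  · have : Tendsto (fun t : ℝ => -t) (𝓝 0) (𝓝 (-0)) := (continuous_neg.tendsto 0)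
    rw [neg_zero] at this
    exact this.mono_left nhdsWithin_le_nhds
  · filter_upwards [self_mem_nhdsWithin] with t ht
    simpa using ht

theorem Gen.symm (hstar : ∀ f, star (U f) = U (-f)) {f : E} {ξ η ξ' η' : 𝓗} (h : Gen U f ξ η)
    (h' : Gen U f ξ' η') : inner ℂ ξ' η = inner ℂ η' ξ := by
  have h1 : Tendsto (fun t : ℝ => inner ℂ ξ' (((t : ℂ) * Complex.I)⁻¹ • (U (t • f) ξ - ξ)))
      (𝓝[≠] 0) (𝓝 (inner ℂ ξ' η)) := Tendsto.inner tendsto_const_nhds h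
  have h2 : Tendsto (fun t : ℝ => inner ℂ ((((-t : ℝ) : ℂ) * Complex.I)⁻¹ •
      (U ((-t) • f) ξ' - ξ')) ξ) (𝓝[≠] 0) (𝓝 (inner ℂ η' ξ)) :=
    Tendsto.inner (h'.comp tendsto_neg_ne) tendsto_const_nhds
  refine tendsto_nhds_unique h1 (h2.congr fun t => ?_)
  have h3 : inner ℂ (U ((-t) • f) ξ') ξ = inner ℂ ξ' (U (t • f) ξ) := by
    rw [neg_smul, ← hstar, ContinuousLinearMap.star_eq_adjoint,
      ContinuousLinearMap.adjoint_inner_left]
  rw [inner_smul_left, inner_smul_right, inner_sub_left, inner_sub_right, h3]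
  congr 1
  simp

theorem YRel.map {b : ℝ} {f : E} {ξ η : 𝓗} (R : 𝓗 →L[ℂ] 𝓗) (hR : ∀ g, R * U g = U g * R)
    (hRS : ∀ g, R * S g = S g * R) (h : YRel S U b f ξ η) : YRel S U b f (R ξ) (R η) := by
  obtain ⟨ζ, hζ, rfl⟩ := h
  refine ⟨R ζ, hζ.map R hR, ?_⟩
  have h1 : R (S f ξ) = S f (R ξ) := by
    have := congrArg (fun T : 𝓗 →L[ℂ] 𝓗 => T ξ) (hRS f)
    simpa using this
  rw [map_add, map_smul, map_smul, h1]

theorem YRel.symm (hstar : ∀ f, star (U f) = U (-f)) (hS : ∀ f, IsSelfAdjoint (S f)) {b : ℝ}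
    {f : E} {ξ η ξ' η' : 𝓗} (h : YRel S U b f ξ η) (h' : YRel S U b f ξ' η') :
    inner ℂ ξ' η = inner ℂ η' ξ := by
  obtain ⟨ζ, hζ, rfl⟩ := h
  obtain ⟨ζ', hζ', rfl⟩ := h'
  have h1 := hζ.symm hstar hζ'
  have h2 : inner ℂ (S f ξ') ξ = inner ℂ ξ' (S f ξ) := by
    conv_lhs => rw [← (hS f).star_eq, ContinuousLinearMap.star_eq_adjoint,
      ContinuousLinearMap.adjoint_inner_left]
  rw [inner_add_right, inner_add_left, inner_smul_right, inner_smul_right, inner_smul_left,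
    inner_smul_left, h1, h2]
  simp

theorem Realisation.inner_U (h : Realisation M Ω S U) (f g : E) :
    inner ℂ (U f Ω) (U g Ω) = ((Real.exp (-‖g - f‖ ^ 2 / 2) : ℝ) : ℂ) := by
  have h1 : inner ℂ (U f Ω) (U g Ω) = tr Ω (U (g - f)) := by
    have h2 : U (g - f) = star (U f) * U g := by
      rw [h.U_star, ← h.U_add]
      congr 1
      abel
    rw [h2, tr, ContinuousLinearMap.star_eq_adjoint]
    rw [ContinuousLinearMap.mul_apply, ContinuousLinearMap.adjoint_inner_right]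
  rw [h1, h.gauss]

end Pool.Agent.Y325.BG
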