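import Pool.Agent.Y325.BG.Vec

/-!
# The `b`-Gaussian von Neumann algebras: averages of `Y_i Y_0 Y_i`
-/

set_option autoImplicit false

open Filter Topology

namespace Pool.Agent.Y325.BG

universe u v

variable {𝓗 : Type v} [NormedAddCommGroup 𝓗] [InnerProductSpace ℂ 𝓗] [CompleteSpace 𝓗]
variable {E : Type u} [NormedAddCommGroup E] [InnerProductSpace ℝ E]
variable {M : VonNeumannAlgebra 𝓗} {Ω : 𝓗} {S U : E → 𝓗 →L[ℂ] 𝓗}

/-- the vectors `a Ω` as a submodule -/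
noncomputable def WA (Ω : 𝓗) (U : E → 𝓗 →L[ℂ] 𝓗) : Submodule ℂ 𝓗 :=
  (Subalgebra.toSubmodule (Algebra.adjoin ℂ (Set.range U))).map
    ((ContinuousLinearMap.apply ℂ 𝓗 Ω : (𝓗 →L[ℂ] 𝓗) →L[ℂ] 𝓗) : (𝓗 →L[ℂ] 𝓗) →ₗ[ℂ] 𝓗)

theorem VA_eq : VA Ω U = ((WA Ω U).topologicalClosure : Set 𝓗) := by
  rw [Submodule.topologicalClosure_coe, VA]
  congr 1

theorem Omega_mem : Ω ∈ VA Ω U :=
  subset_closure ⟨1, one_mem _, by simp⟩

theorem U_mem_VA {ξ : 𝓗} (hξ : ξ ∈ VA Ω U) (g : E) : U g ξ ∈ VA Ω U := by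
  refine map_mem_closure (U g).continuous hξ ?_
  rintro _ ⟨a, ha, rfl⟩
  exact ⟨U g * a, mul_mem (Algebra.subset_adjoin ⟨g, rfl⟩) ha, by simp [mul_apply_eq_comp]⟩

theorem Gen.mem_VA {f : E} {ξ η : 𝓗} (h : Gen U f ξ η) (hξ : ξ ∈ VA Ω U) : η ∈ VA Ω U := by
  rw [VA_eq] at *
  have hc : IsClosed ((WA Ω U).topologicalClosure : Set 𝓗) := Submodule.isClosed_topologicalClosure _
  refine hc.mem_of_tendsto h (Eventually.of_forall fun t => ?_)
  refine Submodule.smul_mem _ _ (Submodule.sub_mem _ ?_ hξ)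
  have h1 : U (t • f) ξ ∈ VA Ω U := U_mem_VA (by rw [VA_eq]; exact hξ) _
  rwa [VA_eq] at h1

theorem S_adj (f : E) : S f ∈ Algebra.adjoin ℂ (Set.range S) := Algebra.subset_adjoin ⟨f, rfl⟩

theorem U_adj (f : E) : U f ∈ Algebra.adjoin ℂ (Set.range U) := Algebra.subset_adjoin ⟨f, rfl⟩

/-- the vectors `g_i S_0 g_i Ω` -/
theorem exists_kappa (hdom : StmDom.{u, v}) (hder : StmDer.{u, v}) (hker : StmKer.{u, v})
    (hV3 : StmVA3.{u, v})
    (h : Realisation M Ω S U) {e : ℕ → E} (he : Orthonormal ℝ e) {γ : ℕ → 𝓗}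
    (hγ : ∀ i, Gen U (e i) Ω (γ i)) (hγ1 : ∀ i, inner ℂ (γ i) (γ i) = 1)
    (hγ0 : ∀ i j, i ≠ j → inner ℂ (γ i) (γ j) = 0) :
    ∃ κ : ℕ → 𝓗, (∀ i, Gen U (e (i + 1)) (S (e 0) (γ (i + 1))) (κ i)) ∧
      (∀ i, inner ℂ (κ i) (κ i) = 1) ∧ (∀ i j, i ≠ j → inner ℂ (κ i) (κ j) = 0) := by
  have hVA : ∀ i, γ i ∈ VA Ω U := fun i => (hγ i).mem_VA Omega_mem
  have hk : ∀ i, ∀ r : ℝ, inner ℂ (S (e 0) (γ (i + 1)))
      (U (r • e (i + 1)) (S (e 0) (γ (i + 1)))) = ph r := by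
    intro i r
    have h1 := hV3 h (hVA (i + 1)) (hVA (i + 1)) (one_mem (Algebra.adjoin ℂ (Set.range U)))
      (U_adj (U := U) (r • e (i + 1))) (e 0) (he.1 0)
    rw [one_apply_eq_self, hγ1, mul_one, star_one, one_mul, h.gauss] at h1
    rw [h1, ph, norm_smul, he.1, mul_one, Real.norm_eq_abs, sq_abs]
  have hex : ∀ i, ∃ η, Gen U (e (i + 1)) (S (e 0) (γ (i + 1))) η := fun i =>
    hdom h.U_zero h.U_add h.U_star _ _ ph (fun r => -(r : ℂ) * ph r)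
      (fun r => ((r : ℂ) ^ 2 - 1) * ph r) (hk i) hasDerivAt_ph hasDerivAt_ph1 continuousAt_ph2
  choose κ hκ using hex
  refine ⟨κ, hκ, fun i => ?_, fun i j hij => ?_⟩
  · have h1 := (hker h.U_zero h.U_add h.U_star (hκ i) (hκ i) 1 (fun t => by simp)
      ph (fun r => -(r : ℂ) * ph r) (fun r => ((r : ℂ) ^ 2 - 1) * ph r)
      (fun r => by rw [one_apply_eq_self]; exact hk i r) hasDerivAt_ph hasDerivAt_ph1 0).2
    simpa [h.U_zero, ph_zero] using h1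
  · have h1 : ∀ t s : ℝ, inner ℂ (U (t • e (i + 1)) (S (e 0) (γ (i + 1))))
        (U (s • e (j + 1)) (S (e 0) (γ (j + 1)))) = 0 := by
      intro t s
      rw [hV3 h (hVA (i + 1)) (hVA (j + 1)) (U_adj (U := U) (t • e (i + 1)))
        (U_adj (U := U) (s • e (j + 1))) (e 0) (he.1 0), hγ0 _ _ (by omega), mul_zero]
    have h2 : ∀ t : ℝ, inner ℂ (U (t • e (i + 1)) (S (e 0) (γ (i + 1)))) (κ j) = 0 := by
      intro t
      have h3 := (hasDerivAt_const (0 : ℝ) (U (t • e (i + 1)) (S (e 0) (γ (i + 1))))).inner ℂ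
        (hder h.U_zero h.U_add (hκ j) 0)
      have h4 : (fun s : ℝ => inner ℂ (U (t • e (i + 1)) (S (e 0) (γ (i + 1))))
        (U (s • e (j + 1)) (S (e 0) (γ (j + 1))))) = fun _ => 0 := funext fun s => h1 t s
      have h5 := h3.unique ((hasDerivAt_const (0 : ℝ) (0 : ℂ)).congr_of_eventuallyEq
        (Eventually.of_forall fun s => h1 t s))
      simpa [h.U_zero, inner_smul_right] using h5
    have h3 := (hder h.U_zero h.U_add (hκ i) 0).inner ℂ (hasDerivAt_const (0 : ℝ) (κ j))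
    have h5 := h3.unique ((hasDerivAt_const (0 : ℝ) (0 : ℂ)).congr_of_eventuallyEq
        (Eventually.of_forall fun t => h2 t))
    simpa [h.U_zero, inner_smul_left] using h5

end Pool.Agent.Y325.BG
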