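import Mathlib

/-!
# The `b`-Gaussian von Neumann algebras: definitions

`M` is a von Neumann algebra on a complex Hilbert space `𝓗` in standard form: the tracial state is
the vector state `tr Ω x = ⟪Ω, x Ω⟫` of a cyclic unit vector `Ω`. `E` is the real Hilbert space
`H_ℝ` of the problem. The free Gaussian family is `S : E → M`. The classical Gaussian family
`G_1(f)` is unbounded; it is given by its unitaries `U f = exp (i G_1(f))`, so `G_1(f)` is the
(Stone) generator of the one-parameter unitary group `t ↦ U (t f)`.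
-/

set_option autoImplicit false

open Filter Topology

namespace Pool.Agent.Y325.BG

universe u v

variable {𝓗 : Type v} [NormedAddCommGroup 𝓗] [InnerProductSpace ℂ 𝓗] [CompleteSpace 𝓗]
variable {E : Type u} [NormedAddCommGroup E] [InnerProductSpace ℝ E]

/-- The vector functional `x ↦ ⟪Ω, x Ω⟫`. -/
noncomputable def tr (Ω : 𝓗) (x : 𝓗 →L[ℂ] 𝓗) : ℂ := inner ℂ Ω (x Ω)

/-- Free independence of two sets (unital subalgebras) `A`, `B` of operators with respect to
`tr Ω`: the trace of every nonempty alternating product of centred elements vanishes.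
The flag `true` marks a factor from `A`, the flag `false` a factor from `B`. -/
def Free (Ω : 𝓗) (A B : Set (𝓗 →L[ℂ] 𝓗)) : Prop :=
  ∀ l : List (Bool × (𝓗 →L[ℂ] 𝓗)), l ≠ [] →
    (∀ p ∈ l, p.2 ∈ (if p.1 then A else B) ∧ tr Ω p.2 = 0) →
    l.IsChain (fun p q => p.1 ≠ q.1) → tr Ω (l.map Prod.snd).prod = 0

/-- A realisation of the two Gaussian families over `E` in the finite von Neumann algebra `M`. -/
structure Realisation (M : VonNeumannAlgebra 𝓗) (Ω : 𝓗) (S U : E → 𝓗 →L[ℂ] 𝓗) : Prop where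
  /-- `Ω` is a unit vector, cyclic for `M`, and its vector state is a trace on `M` (it is then
  automatically faithful and normal) -/
  norm_Ω : ‖Ω‖ = 1
  cyclic : Dense {ξ : 𝓗 | ∃ x ∈ M, x Ω = ξ}
  tracial : ∀ x ∈ M, ∀ y ∈ M, tr Ω (x * y) = tr Ω (y * x)
  /-- the free Gaussian family: self-adjoint elements of `M`, real-linear in `f` -/
  S_mem : ∀ f, S f ∈ M
  S_sa : ∀ f, IsSelfAdjoint (S f)
  S_add : ∀ f g, S (f + g) = S f + S g
  S_smul : ∀ (c : ℝ) f, S (c • f) = (c : ℂ) • S f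
  /-- joint semicircularity with covariance `⟪f, g⟫`: the free Wick formula (sum over non-crossing
  pairings, expanded according to the partner of the first letter) -/
  wick : ∀ (f : E) (l : List E), tr Ω (S f * (l.map S).prod) =
    ∑ k : Fin l.length, ((inner ℝ f (l.get k) : ℝ) : ℂ) *
      (tr Ω ((l.take k).map S).prod * tr Ω ((l.drop (k + 1)).map S).prod)
  /-- the classical Gaussian family: `U f = exp (i G_1(f))` are unitaries in `M`, a homomorphism
  of the additive group of `E`, with Gaussian characteristic function -/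
  U_mem : ∀ f, U f ∈ M
  U_zero : U 0 = 1
  U_add : ∀ f g, U (f + g) = U f * U g
  U_star : ∀ f, star (U f) = U (-f)
  gauss : ∀ f, tr Ω (U f) = ((Real.exp (-‖f‖ ^ 2 / 2) : ℝ) : ℂ)
  /-- the two families are free -/
  free : Free Ω (Algebra.adjoin ℂ (Set.range U) : Set (𝓗 →L[ℂ] 𝓗))
    (Algebra.adjoin ℂ (Set.range S) : Set (𝓗 →L[ℂ] 𝓗))

/-- `Gen U f ξ η`: the vector `ξ` is in the domain of `G_1(f)`, the generator of `t ↦ U (t f)`, and
`G_1(f) ξ = η`, that is `η = lim_{t → 0} (U (t f) ξ - ξ) / (i t)`. -/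
def Gen (U : E → 𝓗 →L[ℂ] 𝓗) (f : E) (ξ η : 𝓗) : Prop :=
  Tendsto (fun t : ℝ => ((t : ℂ) * Complex.I)⁻¹ • (U (t • f) ξ - ξ)) (𝓝[≠] 0) (𝓝 η)

/-- The graph of `Y_b(f) = √(1-b) G_0(f) + √b G_1(f)`. -/
def YRel (S U : E → 𝓗 →L[ℂ] 𝓗) (b : ℝ) (f : E) (ξ η : 𝓗) : Prop :=
  ∃ ζ, Gen U f ξ ζ ∧ η = ((Real.sqrt (1 - b) : ℝ) : ℂ) • S f ξ + ((Real.sqrt b : ℝ) : ℂ) • ζ

/-- The bounded operators commuting with all the self-adjoint operators `Y_b(f)`, `f ∈ E`:
`x Y_b(f) ⊆ Y_b(f) x`. -/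
def comY (S U : E → 𝓗 →L[ℂ] 𝓗) (b : ℝ) : Set (𝓗 →L[ℂ] 𝓗) :=
  {x | ∀ f ξ η, YRel S U b f ξ η → YRel S U b f (x ξ) (x η)}

/-- `Γ_b`: the von Neumann algebra generated by the self-adjoint operators `Y_b(f)`, `f ∈ E`, that
is the commutant of the set of bounded operators commuting with all `Y_b(f)`. -/
def Gam (S U : E → 𝓗 →L[ℂ] 𝓗) (b : ℝ) : Set (𝓗 →L[ℂ] 𝓗) := Set.centralizer (comY S U b)

end Pool.Agent.Y325.BG
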