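import Pool.Agent.Y325.BG.Stm

/-!
# Mixed moments of free families, small moments of a semicircular family
-/

set_option autoImplicit false

open Filter Topology

namespace Pool.Agent.Y325.BG

universe u v

section

variable {𝓗 : Type v} [NormedAddCommGroup 𝓗] [InnerProductSpace ℂ 𝓗] [CompleteSpace 𝓗]
variable {E : Type u} [NormedAddCommGroup E] [InnerProductSpace ℝ E]
variable {M : VonNeumannAlgebra 𝓗} {Ω : 𝓗} {S U : E → 𝓗 →L[ℂ] 𝓗}

theorem tr_add (x y : 𝓗 →L[ℂ] 𝓗) : tr Ω (x + y) = tr Ω x + tr Ω y := by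
  simp [tr, inner_add_right]

theorem tr_sub (x y : 𝓗 →L[ℂ] 𝓗) : tr Ω (x - y) = tr Ω x - tr Ω y := by
  simp [tr, inner_sub_right]

theorem tr_smul (c : ℂ) (x : 𝓗 →L[ℂ] 𝓗) : tr Ω (c • x) = c * tr Ω x := by
  simp [tr, inner_smul_right]

theorem Realisation.tr_one (h : Realisation M Ω S U) : tr Ω (1 : 𝓗 →L[ℂ] 𝓗) = 1 := by
  rw [tr, one_apply_eq_self, inner_self_eq_norm_sq_to_K, h.norm_Ω]; simp

theorem Realisation.memU (h : Realisation M Ω S U) {a : 𝓗 →L[ℂ] 𝓗}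
    (ha : a ∈ Algebra.adjoin ℂ (Set.range U)) : a ∈ M := by
  have h1 : Algebra.adjoin ℂ (Set.range U) ≤ M.toStarSubalgebra.toSubalgebra :=
    Algebra.adjoin_le (by rintro _ ⟨f, rfl⟩; exact h.U_mem f)
  exact h1 ha

theorem Realisation.memS (h : Realisation M Ω S U) {a : 𝓗 →L[ℂ] 𝓗}
    (ha : a ∈ Algebra.adjoin ℂ (Set.range S)) : a ∈ M := by
  have h1 : Algebra.adjoin ℂ (Set.range S) ≤ M.toStarSubalgebra.toSubalgebra :=
    Algebra.adjoin_le (by rintro _ ⟨f, rfl⟩; exact h.S_mem f)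
  exact h1 ha

theorem cent_mem {A : Subalgebra ℂ (𝓗 →L[ℂ] 𝓗)} {a : 𝓗 →L[ℂ] 𝓗} (ha : a ∈ A) (c : ℂ) :
    a - c • (1 : 𝓗 →L[ℂ] 𝓗) ∈ A := sub_mem ha (A.smul_mem (one_mem _) _)

theorem Realisation.free2 (h : Realisation M Ω S U) {a b : 𝓗 →L[ℂ] 𝓗}
    (ha : a ∈ Algebra.adjoin ℂ (Set.range U)) (hb : b ∈ Algebra.adjoin ℂ (Set.range S))
    (ha0 : tr Ω a = 0) (hb0 : tr Ω b = 0) : tr Ω (a * b) = 0 := by
  have := h.free [(true, a), (false, b)] (by simp) (by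
    intro p hp
    simp only [List.mem_cons, List.not_mem_nil, or_false] at hp
    rcases hp with rfl | rfl
    · exact ⟨by simpa using ha, ha0⟩
    · exact ⟨by simpa using hb, hb0⟩) (by simp)
  simpa using this

theorem Realisation.free4 (h : Realisation M Ω S U) {a b a' b' : 𝓗 →L[ℂ] 𝓗}
    (ha : a ∈ Algebra.adjoin ℂ (Set.range U)) (hb : b ∈ Algebra.adjoin ℂ (Set.range S))
    (ha' : a' ∈ Algebra.adjoin ℂ (Set.range U)) (hb' : b' ∈ Algebra.adjoin ℂ (Set.range S))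
    (ha0 : tr Ω a = 0) (hb0 : tr Ω b = 0) (ha0' : tr Ω a' = 0) (hb0' : tr Ω b' = 0) :
    tr Ω (a * b * a' * b') = 0 := by
  have := h.free [(true, a), (false, b), (true, a'), (false, b')] (by simp) (by
    intro p hp
    simp only [List.mem_cons, List.not_mem_nil, or_false] at hp
    rcases hp with rfl | rfl | rfl | rfl
    · exact ⟨by simpa using ha, ha0⟩
    · exact ⟨by simpa using hb, hb0⟩
    · exact ⟨by simpa using ha', ha0'⟩
    · exact ⟨by simpa using hb', hb0'⟩) (by simp)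
  simpa [mul_assoc] using this

theorem Realisation.tr_cent (h : Realisation M Ω S U) (a : 𝓗 →L[ℂ] 𝓗) :
    tr Ω (a - tr Ω a • (1 : 𝓗 →L[ℂ] 𝓗)) = 0 := by
  rw [tr_sub, tr_smul, h.tr_one, mul_one, sub_self]

theorem Realisation.tr_mul (h : Realisation M Ω S U) {a b : 𝓗 →L[ℂ] 𝓗}
    (ha : a ∈ Algebra.adjoin ℂ (Set.range U)) (hb : b ∈ Algebra.adjoin ℂ (Set.range S)) :
    tr Ω (a * b) = tr Ω a * tr Ω b := by
  have h1 := h.free2 (cent_mem ha (tr Ω a)) (cent_mem hb (tr Ω b)) (h.tr_cent a) (h.tr_cent b)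
  have h2 : (a - tr Ω a • (1 : 𝓗 →L[ℂ] 𝓗)) * (b - tr Ω b • (1 : 𝓗 →L[ℂ] 𝓗)) =
      a * b - tr Ω b • a - tr Ω a • b + (tr Ω a * tr Ω b) • (1 : 𝓗 →L[ℂ] 𝓗) := by
    rw [sub_mul, mul_sub, mul_sub, smul_mul_assoc, one_mul, mul_smul_comm, mul_one, smul_mul_assoc,
      one_mul, smul_smul]
    abel
  rw [h2, tr_add, tr_sub, tr_sub, tr_smul, tr_smul, tr_smul, h.tr_one] at h1
  linear_combination h1

/-- the product of two centred elements of the second algebra around a centred element -/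
theorem Realisation.tr_mul4 (h : Realisation M Ω S U) {a b a' b' : 𝓗 →L[ℂ] 𝓗}
    (ha : a ∈ Algebra.adjoin ℂ (Set.range U)) (hb : b ∈ Algebra.adjoin ℂ (Set.range S))
    (ha' : a' ∈ Algebra.adjoin ℂ (Set.range U)) (hb' : b' ∈ Algebra.adjoin ℂ (Set.range S)) :
    tr Ω (a * b * a' * b') = tr Ω (a * a') * tr Ω b * tr Ω b' + tr Ω a * tr Ω a' * tr Ω (b * b')
      - tr Ω a * tr Ω a' * tr Ω b * tr Ω b' := by
  have h1 := h.free4 (cent_mem ha (tr Ω a)) (cent_mem hb (tr Ω b)) (cent_mem ha' (tr Ω a'))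
    (cent_mem hb' (tr Ω b')) (h.tr_cent a) (h.tr_cent b) (h.tr_cent a') (h.tr_cent b')
  have t1 : tr Ω (a * b * a') = tr Ω (a' * a) * tr Ω b := by
    rw [h.tracial _ (mul_mem (h.memU ha) (h.memS hb)) _ (h.memU ha'), ← mul_assoc,
      h.tr_mul (mul_mem ha' ha) hb]
  have t1' : tr Ω (a' * a) = tr Ω (a * a') := h.tracial _ (h.memU ha') _ (h.memU ha)
  have t2 : tr Ω (a * a' * b') = tr Ω (a * a') * tr Ω b' := h.tr_mul (mul_mem ha ha') hb'
  have t3 : tr Ω (b * a' * b') = tr Ω a' * tr Ω (b * b') := by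
    rw [mul_assoc, h.tracial _ (h.memS hb) _ (mul_mem (h.memU ha') (h.memS hb')), mul_assoc,
      h.tr_mul ha' (mul_mem hb' hb), h.tracial _ (h.memS hb') _ (h.memS hb)]
  have t4 : tr Ω (a * b * b') = tr Ω a * tr Ω (b * b') := by
    rw [mul_assoc, h.tr_mul ha (mul_mem hb hb')]
  have t5 : tr Ω (a * b) = tr Ω a * tr Ω b := h.tr_mul ha hb
  have t6 : tr Ω (a * b') = tr Ω a * tr Ω b' := h.tr_mul ha hb'
  have t7 : tr Ω (a' * b') = tr Ω a' * tr Ω b' := h.tr_mul ha' hb'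
  have t8 : tr Ω (b * a') = tr Ω a' * tr Ω b := by
    rw [h.tracial _ (h.memS hb) _ (h.memU ha'), h.tr_mul ha' hb]
  have h2 : (a - tr Ω a • (1 : 𝓗 →L[ℂ] 𝓗)) * (b - tr Ω b • (1 : 𝓗 →L[ℂ] 𝓗)) *
      (a' - tr Ω a' • (1 : 𝓗 →L[ℂ] 𝓗)) * (b' - tr Ω b' • (1 : 𝓗 →L[ℂ] 𝓗)) =
      a * b * a' * b' - tr Ω b' • (a * b * a') - tr Ω a' • (a * b * b') +
        (tr Ω a' * tr Ω b') • (a * b) - tr Ω b • (a * a' * b') + (tr Ω b * tr Ω b') • (a * a') +
        (tr Ω b * tr Ω a') • (a * b') - (tr Ω b * tr Ω a' * tr Ω b') • a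
        - tr Ω a • (b * a' * b') + (tr Ω a * tr Ω b') • (b * a') + (tr Ω a * tr Ω a') • (b * b')
        - (tr Ω a * tr Ω a' * tr Ω b') • b + (tr Ω a * tr Ω b) • (a' * b')
        - (tr Ω a * tr Ω b * tr Ω b') • a' - (tr Ω a * tr Ω b * tr Ω a') • b'
        + (tr Ω a * tr Ω b * tr Ω a' * tr Ω b') • (1 : 𝓗 →L[ℂ] 𝓗) := by
    simp only [sub_mul, mul_sub, smul_mul_assoc, one_mul, mul_smul_comm, mul_one, smul_smul,
      smul_sub]
    module
  rw [h2] at h1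
  simp only [tr_add, tr_sub, tr_smul, h.tr_one, t1, t1', t2, t3, t4, t5, t6, t7, t8] at h1
  linear_combination h1

end

theorem fm : StmFM.{u, v} := by
  intro 𝓗 _ _ _ E _ _ M Ω S U h a b a' b' ha hb ha' hb'
  exact ⟨h.tr_mul ha hb, h.tr_mul4 ha hb ha' hb'⟩

theorem wick : StmWick.{u, v} := by
  intro 𝓗 _ _ _ E _ _ M Ω S U h e he
  have hin : ∀ i j, inner ℝ (e i) (e j) = if i = j then (1 : ℝ) else 0 := fun i j =>
    orthonormal_iff_ite.1 he i j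
  have m0 : tr Ω (1 : 𝓗 →L[ℂ] 𝓗) = 1 := h.tr_one
  have m1 : ∀ f, tr Ω (S f) = 0 := by
    intro f
    simpa using h.wick f []
  have m2 : ∀ f g, tr Ω (S f * S g) = ((inner ℝ f g : ℝ) : ℂ) := by
    intro f g
    simpa [m0] using h.wick f [g]
  have m4 : ∀ f g k l, tr Ω (S f * (S g * (S k * S l))) =
      ((inner ℝ f g : ℝ) : ℂ) * ((inner ℝ k l : ℝ) : ℂ) +
      ((inner ℝ f l : ℝ) : ℂ) * ((inner ℝ g k : ℝ) : ℂ) := by
    intro f g k l
    simpa [Fin.sum_univ_succ, m0, m1, m2] using h.wick f [g, k, l]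
  have m6 : ∀ f g k l m n, tr Ω (S f * (S g * (S k * (S l * (S m * S n))))) =
      ((inner ℝ f g : ℝ) : ℂ) * (((inner ℝ k l : ℝ) : ℂ) * ((inner ℝ m n : ℝ) : ℂ) +
        ((inner ℝ k n : ℝ) : ℂ) * ((inner ℝ l m : ℝ) : ℂ)) +
      ((inner ℝ f l : ℝ) : ℂ) * (((inner ℝ g k : ℝ) : ℂ) * ((inner ℝ m n : ℝ) : ℂ)) +
      ((inner ℝ f n : ℝ) : ℂ) * (((inner ℝ g k : ℝ) : ℂ) * ((inner ℝ l m : ℝ) : ℂ) +
        ((inner ℝ g m : ℝ) : ℂ) * ((inner ℝ k l : ℝ) : ℂ)) := by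
    intro f g k l m n
    have := h.wick f [g, k, l, m, n]
    simp [Fin.sum_univ_succ, m0, m1, m2, m4] at this
    rw [this]
    ring
  refine ⟨fun i => m1 _, fun i j => ?_, fun i hi => ?_, fun i hi => ?_, fun i j hi hj => ?_⟩
  · rw [m2, hin]; split_ifs <;> simp
  · rw [mul_assoc, m4]; rw [hin, hin, hin, hin]; simp [hi, Ne.symm hi]
  · rw [mul_assoc, m4]; rw [hin, hin, hin, hin]; simp [hi, Ne.symm hi]
  · rw [show S (e 0) * S (e i) * (S (e j) * S (e 0)) * (S (e j) * S (e i)) =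
      S (e 0) * (S (e i) * (S (e j) * (S (e 0) * (S (e j) * S (e i))))) by
      simp only [mul_assoc], m6]
    simp only [hin, if_neg hi, if_neg hj, if_neg (Ne.symm hi), if_neg (Ne.symm hj)]
    by_cases hij : i = j
    · simp [hij]
    · simp [hij, Ne.symm hij]

end Pool.Agent.Y325.BG
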