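import Pool.Agent.Y325.BG.Defs

/-!
# The `b`-Gaussian von Neumann algebras: statements of the parts of the proof
-/

set_option autoImplicit false

open Filter Topology

namespace Pool.Agent.Y325.BG

universe u v

/-- right multiplication -/
def StmR : Prop := ∀ {𝓗 : Type v} [NormedAddCommGroup 𝓗] [InnerProductSpace ℂ 𝓗]
    [CompleteSpace 𝓗] {M : VonNeumannAlgebra 𝓗} {Ω : 𝓗},
    Dense {ξ : 𝓗 | ∃ x ∈ M, x Ω = ξ} → (∀ x ∈ M, ∀ y ∈ M, tr Ω (x * y) = tr Ω (y * x)) →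
    ∀ {a : 𝓗 →L[ℂ] 𝓗}, a ∈ M →
    ∃ R : 𝓗 →L[ℂ] 𝓗, R Ω = a Ω ∧ ∀ x ∈ M, R * x = x * R

/-- a vector with a twice differentiable matrix coefficient is in the domain of the generator -/
def StmDom : Prop := ∀ {𝓗 : Type v} [NormedAddCommGroup 𝓗] [InnerProductSpace ℂ 𝓗]
    [CompleteSpace 𝓗] {E : Type u} [NormedAddCommGroup E] [InnerProductSpace ℝ E]
    {U : E → 𝓗 →L[ℂ] 𝓗}, U 0 = 1 → (∀ f g, U (f + g) = U f * U g) →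
    (∀ f, star (U f) = U (-f)) → ∀ (f : E) (ξ : 𝓗) (k k1 k2 : ℝ → ℂ),
    (∀ r : ℝ, inner ℂ ξ (U (r • f) ξ) = k r) → (∀ r, HasDerivAt k (k1 r) r) →
    (∀ r, HasDerivAt k1 (k2 r) r) → ContinuousAt k2 0 → ∃ η, Gen U f ξ η

/-- the orbit of a vector in the domain is differentiable everywhere -/
def StmDer : Prop := ∀ {𝓗 : Type v} [NormedAddCommGroup 𝓗] [InnerProductSpace ℂ 𝓗]
    [CompleteSpace 𝓗] {E : Type u} [NormedAddCommGroup E] [InnerProductSpace ℝ E]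
    {U : E → 𝓗 →L[ℂ] 𝓗}, U 0 = 1 → (∀ f g, U (f + g) = U f * U g) →
    ∀ {f : E} {ξ η : 𝓗}, Gen U f ξ η → ∀ t : ℝ,
    HasDerivAt (fun s : ℝ => U (s • f) ξ) (Complex.I • U (t • f) η) t

/-- matrix coefficients of the image under the generator -/
def StmKer : Prop := ∀ {𝓗 : Type v} [NormedAddCommGroup 𝓗] [InnerProductSpace ℂ 𝓗]
    [CompleteSpace 𝓗] {E : Type u} [NormedAddCommGroup E] [InnerProductSpace ℝ E]
    {U : E → 𝓗 →L[ℂ] 𝓗}, U 0 = 1 → (∀ f g, U (f + g) = U f * U g) →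
    (∀ f, star (U f) = U (-f)) → ∀ {f : E} {ξ η ξ' η' : 𝓗}, Gen U f ξ η → Gen U f ξ' η' →
    ∀ (B : 𝓗 →L[ℂ] 𝓗), (∀ t : ℝ, B * U (t • f) = U (t • f) * B) →
    ∀ (k k1 k2 : ℝ → ℂ), (∀ r : ℝ, inner ℂ ξ (B (U (r • f) ξ')) = k r) →
    (∀ r, HasDerivAt k (k1 r) r) → (∀ r, HasDerivAt k1 (k2 r) r) → ∀ r : ℝ,
    inner ℂ ξ (B (U (r • f) η')) = -Complex.I * k1 r ∧
      inner ℂ η (B (U (r • f) η')) = - k2 r

/-- independent Gaussian directions at a base vector -/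
def StmGL : Prop := ∀ {𝓗 : Type v} [NormedAddCommGroup 𝓗] [InnerProductSpace ℂ 𝓗]
    [CompleteSpace 𝓗] {E : Type u} [NormedAddCommGroup E] [InnerProductSpace ℝ E]
    {U : E → 𝓗 →L[ℂ] 𝓗}, U 0 = 1 → (∀ f g, U (f + g) = U f * U g) →
    (∀ f, star (U f) = U (-f)) → ∀ (e : ℕ → E) (ω : 𝓗),
    (∀ i, ∀ t s : ℝ, inner ℂ (U (t • e i) ω) (U (s • e i) ω) =
      ((Real.exp (-(s - t) ^ 2 / 2) : ℝ) : ℂ)) →
    (∀ i j, i ≠ j → ∀ t s : ℝ, inner ℂ (U (t • e i) ω) (U (s • e j) ω) =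
      ((Real.exp (-t ^ 2 / 2) * Real.exp (-s ^ 2 / 2) : ℝ) : ℂ)) →
    ∃ γ θ : ℕ → 𝓗, (∀ i, Gen U (e i) ω (γ i)) ∧ (∀ i, Gen U (e i) (γ i) (θ i)) ∧
      (∀ i, inner ℂ ω (γ i) = 0) ∧ (∀ i, inner ℂ (γ i) (γ i) = 1) ∧
      (∀ i j, i ≠ j → inner ℂ (γ i) (γ j) = 0) ∧
      (∀ i j, i ≠ j → inner ℂ (θ i - ω) (θ j - ω) = 0) ∧ (∀ i, ‖θ i - ω‖ ≤ 2)

/-- mixed moments of length two and four -/
def StmFM : Prop := ∀ {𝓗 : Type v} [NormedAddCommGroup 𝓗] [InnerProductSpace ℂ 𝓗]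
    [CompleteSpace 𝓗] {E : Type u} [NormedAddCommGroup E] [InnerProductSpace ℝ E]
    {M : VonNeumannAlgebra 𝓗} {Ω : 𝓗} {S U : E → 𝓗 →L[ℂ] 𝓗}, Realisation M Ω S U →
    ∀ {a b a' b' : 𝓗 →L[ℂ] 𝓗}, a ∈ Algebra.adjoin ℂ (Set.range U) →
    b ∈ Algebra.adjoin ℂ (Set.range S) → a' ∈ Algebra.adjoin ℂ (Set.range U) →
    b' ∈ Algebra.adjoin ℂ (Set.range S) →
    tr Ω (a * b) = tr Ω a * tr Ω b ∧
    tr Ω (a * b * a' * b') = tr Ω (a * a') * tr Ω b * tr Ω b' + tr Ω a * tr Ω a' * tr Ω (b * b')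
      - tr Ω a * tr Ω a' * tr Ω b * tr Ω b'

/-- the closed subspace of the vectors `a Ω`, `a` in the algebra generated by `U` -/
def VA {𝓗 : Type v} [NormedAddCommGroup 𝓗] [InnerProductSpace ℂ 𝓗] {E : Type u}
    (Ω : 𝓗) (U : E → 𝓗 →L[ℂ] 𝓗) : Set 𝓗 :=
  closure {ξ | ∃ a ∈ Algebra.adjoin ℂ (Set.range U), a Ω = ξ}

/-- inner products of the vectors `b ξ c` with `ξ` in `VA` -/
def StmVA2 : Prop := ∀ {𝓗 : Type v} [NormedAddCommGroup 𝓗] [InnerProductSpace ℂ 𝓗]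
    [CompleteSpace 𝓗] {E : Type u} [NormedAddCommGroup E] [InnerProductSpace ℝ E]
    {M : VonNeumannAlgebra 𝓗} {Ω : 𝓗} {S U : E → 𝓗 →L[ℂ] 𝓗}, Realisation M Ω S U →
    ∀ {ξ η : 𝓗}, ξ ∈ VA Ω U → η ∈ VA Ω U → ∀ {b b' c c' R R' : 𝓗 →L[ℂ] 𝓗},
    b ∈ Algebra.adjoin ℂ (Set.range S) → b' ∈ Algebra.adjoin ℂ (Set.range S) →
    c ∈ Algebra.adjoin ℂ (Set.range S) → c' ∈ Algebra.adjoin ℂ (Set.range S) →
    R Ω = c Ω → R' Ω = c' Ω → (∀ x ∈ M, R * x = x * R) → (∀ x ∈ M, R' * x = x * R') →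
    inner ℂ (b (R ξ)) (b' (R' η)) =
      tr Ω (star b * b' * (c' * star c)) * (inner ℂ ξ Ω * inner ℂ Ω η) +
      tr Ω (star b * b') * tr Ω (c' * star c) *
        (inner ℂ ξ η - inner ℂ ξ Ω * inner ℂ Ω η)

/-- inner products of the vectors `a S_f ξ` with `ξ` in `VA` -/
def StmVA3 : Prop := ∀ {𝓗 : Type v} [NormedAddCommGroup 𝓗] [InnerProductSpace ℂ 𝓗]
    [CompleteSpace 𝓗] {E : Type u} [NormedAddCommGroup E] [InnerProductSpace ℝ E]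
    {M : VonNeumannAlgebra 𝓗} {Ω : 𝓗} {S U : E → 𝓗 →L[ℂ] 𝓗}, Realisation M Ω S U →
    ∀ {ξ η : 𝓗}, ξ ∈ VA Ω U → η ∈ VA Ω U → ∀ {a a' : 𝓗 →L[ℂ] 𝓗},
    a ∈ Algebra.adjoin ℂ (Set.range U) → a' ∈ Algebra.adjoin ℂ (Set.range U) →
    ∀ f : E, ‖f‖ = 1 →
    inner ℂ (a (S f ξ)) (a' (S f η)) = tr Ω (star a * a') * inner ℂ ξ η

/-- small moments of the semicircular family -/
def StmWick : Prop := ∀ {𝓗 : Type v} [NormedAddCommGroup 𝓗] [InnerProductSpace ℂ 𝓗]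
    [CompleteSpace 𝓗] {E : Type u} [NormedAddCommGroup E] [InnerProductSpace ℝ E]
    {M : VonNeumannAlgebra 𝓗} {Ω : 𝓗} {S U : E → 𝓗 →L[ℂ] 𝓗}, Realisation M Ω S U →
    ∀ {e : ℕ → E}, Orthonormal ℝ e →
    (∀ i, tr Ω (S (e i)) = 0) ∧ (∀ i j, tr Ω (S (e i) * S (e j)) = if i = j then 1 else 0) ∧
    (∀ i, i ≠ 0 → tr Ω (S (e i) * S (e 0) * (S (e 0) * S (e i))) = 1) ∧
    (∀ i, i ≠ 0 → tr Ω (S (e 0) * S (e i) * (S (e i) * S (e 0))) = 1) ∧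
    (∀ i j, i ≠ 0 → j ≠ 0 →
      tr Ω (S (e 0) * S (e i) * (S (e j) * S (e 0)) * (S (e j) * S (e i))) =
        if i = j then 1 else 0)

/-- averages of bounded orthogonal vectors -/
def StmAvg : Prop := ∀ {𝓗 : Type v} [NormedAddCommGroup 𝓗] [InnerProductSpace ℂ 𝓗]
    (F : ℕ → 𝓗) (C : ℝ), (∀ i, ‖F i‖ ≤ C) → (∀ i j, i ≠ j → inner ℂ (F i) (F j) = 0) →
    Tendsto (fun n : ℕ => ((n : ℂ))⁻¹ • ∑ i ∈ Finset.range n, F i) atTop (𝓝 0)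

/-- orthonormal sequences in infinite dimension -/
def StmSeq : Prop := ∀ {E : Type u} [NormedAddCommGroup E] [InnerProductSpace ℝ E],
    ¬ FiniteDimensional ℝ E → ∀ f : E, ‖f‖ = 1 → ∃ e : ℕ → E, Orthonormal ℝ e ∧ e 0 = f

/-- the last step: an operator `x` whose matrix coefficients intertwine the generator of
`t ↦ U (t f)` on the vectors `a Ω` commutes with `U (t f)` -/
def StmComm : Prop := ∀ {𝓗 : Type v} [NormedAddCommGroup 𝓗] [InnerProductSpace ℂ 𝓗]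
    [CompleteSpace 𝓗] {E : Type u} [NormedAddCommGroup E] [InnerProductSpace ℝ E]
    {M : VonNeumannAlgebra 𝓗} {Ω : 𝓗} {S U : E → 𝓗 →L[ℂ] 𝓗}, Realisation M Ω S U →
    ∀ (f : E) (γ : 𝓗), Gen U f Ω γ → ∀ x : 𝓗 →L[ℂ] 𝓗,
    (∀ a ∈ M, ∀ a' ∈ M, ∀ R R' : 𝓗 →L[ℂ] 𝓗, R Ω = a Ω → R' Ω = a' Ω →
      (∀ y ∈ M, R * y = y * R) → (∀ y ∈ M, R' * y = y * R') →
      inner ℂ (R' Ω) (x (R γ)) = inner ℂ (R' γ) (x (R Ω))) →
    ∀ t : ℝ, x * U (t • f) = U (t • f) * x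

end Pool.Agent.Y325.BG
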