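import Pool.Agent.Y325.BG.Avg

/-!
# The `b`-Gaussian von Neumann algebras in infinite dimension: assembly
-/

set_option autoImplicit false

open Filter Topology

namespace Pool.Agent.Y325.BG

universe u v

variable {𝓗 : Type v} [NormedAddCommGroup 𝓗] [InnerProductSpace ℂ 𝓗] [CompleteSpace 𝓗]
variable {E : Type u} [NormedAddCommGroup E] [InnerProductSpace ℝ E]
variable {M : VonNeumannAlgebra 𝓗} {Ω : 𝓗} {S U : E → 𝓗 →L[ℂ] 𝓗}

/-- the vectors `Y_i Ω`, `Y_0 Y_i Ω`, `Y_i Y_0 Y_i Ω` and the limit of the averages of the last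
ones -/
theorem exists_chain (hR : StmR.{v}) (hdom : StmDom.{u, v}) (hder : StmDer.{u, v})
    (hker : StmKer.{u, v}) (hGL : StmGL.{u, v}) (hV2 : StmVA2.{u, v}) (hV3 : StmVA3.{u, v})
    (hW : StmWick.{u, v}) (hAvg : StmAvg.{v})
    (h : Realisation M Ω S U) {e : ℕ → E} (he : Orthonormal ℝ e) (b : ℝ) :
    ∃ (γ : 𝓗) (p w x : ℕ → 𝓗), Gen U (e 0) Ω γ ∧
      (∀ i, YRel S U b (e (i + 1)) Ω (p i)) ∧ (∀ i, YRel S U b (e 0) (p i) (w i)) ∧
      (∀ i, YRel S U b (e (i + 1)) (w i) (x i)) ∧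
      AvgZ (fun i => x i - (((Real.sqrt b : ℝ) : ℂ) ^ 3) • γ) := by
  obtain ⟨γ, ρ, θ, κ, R1, R2, hγ, hρ, hρ', hθ, hκ, hR1, hR1M, hR2, hR2M, f1, f2, f3, f4, f5, f6,
    f7, f8⟩ := families hR hdom hder hker hGL hV2 hV3 hW hAvg h he
  set α : ℂ := ((Real.sqrt (1 - b) : ℝ) : ℂ) with hα
  set β : ℂ := ((Real.sqrt b : ℝ) : ℂ) with hβ
  have hR1U : ∀ i g, R1 i * U g = U g * R1 i := fun i g => hR1M i _ (h.U_mem g)
  have hR2U : ∀ i g, R2 i * U g = U g * R2 i := fun i g => hR2M i _ (h.U_mem g)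
  let p : ℕ → 𝓗 := fun i => α • S (e (i + 1)) Ω + β • γ (i + 1)
  let q : ℕ → 𝓗 := fun i => α • R1 i (γ 0) + β • ρ i
  let w : ℕ → 𝓗 := fun i => α • S (e 0) (p i) + β • q i
  let z : ℕ → 𝓗 := fun i => (α ^ 2) • R2 i (γ (i + 1)) + (α * β) • κ i + (α * β) • R1 i (ρ i) +
    (β ^ 2) • θ i
  let x : ℕ → 𝓗 := fun i => α • S (e (i + 1)) (w i) + β • z i
  have hp : ∀ i, YRel S U b (e (i + 1)) Ω (p i) := fun i => ⟨γ (i + 1), hγ (i + 1), rfl⟩
  have hpq : ∀ i, Gen U (e 0) (p i) (q i) := by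
    intro i
    have h1 : Gen U (e 0) (S (e (i + 1)) Ω) (R1 i (γ 0)) := by
      rw [← hR1]
      exact (hγ 0).map (R1 i) (hR1U i)
    exact (h1.smul α).add ((hρ' i).smul β)
  have hw : ∀ i, YRel S U b (e 0) (p i) (w i) := fun i => ⟨q i, hpq i, rfl⟩
  have hwexp : ∀ i, w i = (α ^ 2) • S (e 0) (S (e (i + 1)) Ω) + (α * β) • S (e 0) (γ (i + 1)) +
      (α * β) • R1 i (γ 0) + (β ^ 2) • ρ i := by
    intro i
    simp only [w, p, q, map_add, map_smul, smul_add, smul_smul]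
    rw [pow_two, pow_two, mul_comm β α]
    abel
  have hwz : ∀ i, Gen U (e (i + 1)) (w i) (z i) := by
    intro i
    rw [hwexp]
    have h1 : Gen U (e (i + 1)) (S (e 0) (S (e (i + 1)) Ω)) (R2 i (γ (i + 1))) := by
      rw [← hR2]
      exact (hγ (i + 1)).map (R2 i) (hR2U i)
    have h2 : Gen U (e (i + 1)) (R1 i (γ 0)) (R1 i (ρ i)) := (hρ i).map (R1 i) (hR1U i)
    exact (((h1.smul _).add ((hκ i).smul _)).add (h2.smul _)).add ((hθ i).smul _)
  have hx : ∀ i, YRel S U b (e (i + 1)) (w i) (x i) := fun i => ⟨z i, hwz i, rfl⟩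
  refine ⟨γ 0, p, w, x, hγ 0, hp, hw, hx, ?_⟩
  have hfin : (fun i => x i - (β ^ 3) • γ 0) = fun i =>
      (α ^ 3) • S (e (i + 1)) (S (e 0) (S (e (i + 1)) Ω)) +
      ((α ^ 2 * β) • S (e (i + 1)) (S (e 0) (γ (i + 1))) +
      ((α ^ 2 * β) • S (e (i + 1)) (R1 i (γ 0)) +
      ((α * β ^ 2) • S (e (i + 1)) (ρ i) +
      ((α ^ 2 * β) • R2 i (γ (i + 1)) +
      ((α * β ^ 2) • κ i +
      ((α * β ^ 2) • R1 i (ρ i) + (β ^ 3) • (θ i - γ 0))))))) := by
    funext i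
    simp only [x, z, hwexp, map_add, map_smul, smul_add, smul_smul, smul_sub]
    have e1 : α * α ^ 2 = α ^ 3 := by ring
    have e2 : α * (α * β) = α ^ 2 * β := by ring
    have e3 : β * α ^ 2 = α ^ 2 * β := by ring
    have e4 : β * (α * β) = α * β ^ 2 := by ring
    have e5 : β * β ^ 2 = β ^ 3 := by ring
    rw [e1, e2, e3, e4, e5]
    abel
  rw [hfin]
  exact (f1.smul _).add ((f2.smul _).add ((f3.smul _).add ((f4.smul _).add ((f5.smul _).add
    ((f6.smul _).add ((f7.smul _).add (f8.smul _)))))))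

/-- an operator commuting with all `Y_b(f)` commutes with the unitaries of the classical family -/
theorem comm_U (hR : StmR.{v}) (hdom : StmDom.{u, v}) (hder : StmDer.{u, v})
    (hker : StmKer.{u, v}) (hGL : StmGL.{u, v}) (hV2 : StmVA2.{u, v}) (hV3 : StmVA3.{u, v})
    (hW : StmWick.{u, v}) (hAvg : StmAvg.{v}) (hSeq : StmSeq.{u}) (hComm : StmComm.{u, v})
    (hE : ¬ FiniteDimensional ℝ E) (h : Realisation M Ω S U) {b : ℝ} (hb : 0 < b)
    {y : 𝓗 →L[ℂ] 𝓗} (hy : y ∈ comY S U b) (g : E) : y * U g = U g * y := by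
  by_cases hg : g = 0
  · rw [hg, h.U_zero, one_mul, mul_one]
  obtain ⟨e, he, he0⟩ := hSeq hE (‖g‖⁻¹ • g) (by
    rw [norm_smul, norm_inv, norm_norm, inv_mul_cancel₀ (norm_ne_zero_iff.2 hg)])
  obtain ⟨γ, p, w, x, hγ, hp, hw, hx, hlim⟩ :=
    exists_chain hR hdom hder hker hGL hV2 hV3 hW hAvg h he b
  have hβ : (((Real.sqrt b : ℝ) : ℂ) ^ 3) ≠ 0 := by
    have : Real.sqrt b ≠ 0 := (Real.sqrt_pos.2 hb).ne'
    exact pow_ne_zero _ (by exact_mod_cast this)
  set β3 : ℂ := ((Real.sqrt b : ℝ) : ℂ) ^ 3 with hβ3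
  have hlim' : Tendsto (fun n : ℕ => ((n : ℂ))⁻¹ • ∑ i ∈ Finset.range n, x i) atTop
      (𝓝 (β3 • γ)) := by
    have h1 : Tendsto (fun n : ℕ => ((n : ℂ))⁻¹ • ∑ i ∈ Finset.range n, (x i - β3 • γ) + β3 • γ)
        atTop (𝓝 (0 + β3 • γ)) := Tendsto.add hlim tendsto_const_nhds
    rw [zero_add] at h1
    refine h1.congr' ?_
    filter_upwards [eventually_gt_atTop 0] with n hn
    have hn' : (n : ℂ) ≠ 0 := by exact_mod_cast hn.ne'
    rw [Finset.sum_sub_distrib, smul_sub, Finset.sum_const, Finset.card_range,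
      ← Nat.cast_smul_eq_nsmul ℂ, smul_smul, inv_mul_cancel₀ hn', one_smul, sub_add_cancel]
  have key : ∀ a ∈ M, ∀ a' ∈ M, ∀ R R' : 𝓗 →L[ℂ] 𝓗, R Ω = a Ω → R' Ω = a' Ω →
      (∀ y ∈ M, R * y = y * R) → (∀ y ∈ M, R' * y = y * R') →
      inner ℂ (R' Ω) (y (R γ)) = inner ℂ (R' γ) (y (R Ω)) := by
    intro a _ a' _ R R' _ _ hRM hRM'
    have hRU : ∀ g, R * U g = U g * R := fun g => hRM _ (h.U_mem g)
    have hRU' : ∀ g, R' * U g = U g * R' := fun g => hRM' _ (h.U_mem g)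
    have hRS : ∀ g, R * S g = S g * R := fun g => hRM _ (h.S_mem g)
    have hRS' : ∀ g, R' * S g = S g * R' := fun g => hRM' _ (h.S_mem g)
    have h1 : ∀ i, inner ℂ (R' Ω) (y (R (x i))) = inner ℂ (R' (x i)) (y (R Ω)) := by
      intro i
      have a1 := hy _ _ _ ((hx i).map R hRU hRS)
      have a2 := hy _ _ _ ((hw i).map R hRU hRS)
      have a3 := hy _ _ _ ((hp i).map R hRU hRS)
      have b1 := (hx i).map R' hRU' hRS'
      have b2 := (hw i).map R' hRU' hRS'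
      have b3 := (hp i).map R' hRU' hRS'
      rw [a1.symm h.U_star h.S_sa b3, a2.symm h.U_star h.S_sa b2, a3.symm h.U_star h.S_sa b1]
    have h2 : Tendsto (fun n : ℕ => inner ℂ (R' Ω)
        (y (R (((n : ℂ))⁻¹ • ∑ i ∈ Finset.range n, x i)))) atTop
        (𝓝 (inner ℂ (R' Ω) (y (R (β3 • γ))))) :=
      Tendsto.inner tendsto_const_nhds
        ((y.continuous.tendsto _).comp ((R.continuous.tendsto _).comp hlim'))
    have h3 : Tendsto (fun n : ℕ => inner ℂ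
        (R' (((n : ℂ))⁻¹ • ∑ i ∈ Finset.range n, x i)) (y (R Ω))) atTop
        (𝓝 (inner ℂ (R' (β3 • γ)) (y (R Ω)))) :=
      Tendsto.inner ((R'.continuous.tendsto _).comp hlim') tendsto_const_nhds
    have h4 : inner ℂ (R' Ω) (y (R (β3 • γ))) = inner ℂ (R' (β3 • γ)) (y (R Ω)) := by
      refine tendsto_nhds_unique h2 (h3.congr fun n => ?_)
      simp only [map_smul, map_sum, inner_smul_left, inner_smul_right, inner_sum, sum_inner]
      rw [Finset.sum_congr rfl fun i _ => (h1 i).symm]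
      simp
    have hβ' : (starRingEnd ℂ) β3 = β3 := by
      rw [hβ3, ← Complex.ofReal_pow, Complex.conj_ofReal]
    simp only [map_smul, inner_smul_left, inner_smul_right, hβ'] at h4
    exact mul_left_cancel₀ hβ h4
  have h5 := hComm h (e 0) γ hγ y key ‖g‖
  have h6 : ‖g‖ • e 0 = g := by
    rw [he0, smul_smul, mul_inv_cancel₀ (norm_ne_zero_iff.2 hg), one_smul]
  rwa [h6] at h5

/-- the operators commuting with all `Y_b(f)` are those commuting with both families -/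
theorem comY_eq (hR : StmR.{v}) (hdom : StmDom.{u, v}) (hder : StmDer.{u, v})
    (hker : StmKer.{u, v}) (hGL : StmGL.{u, v}) (hV2 : StmVA2.{u, v}) (hV3 : StmVA3.{u, v})
    (hW : StmWick.{u, v}) (hAvg : StmAvg.{v}) (hSeq : StmSeq.{u}) (hComm : StmComm.{u, v})
    (hE : ¬ FiniteDimensional ℝ E) (h : Realisation M Ω S U) {b : ℝ} (hb : 0 < b) (hb1 : b < 1) :
    comY S U b = Set.centralizer (Set.range S ∪ Set.range U) := by
  apply Set.Subset.antisymm
  · intro y hy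
    have hU : ∀ g, y * U g = U g * y :=
      comm_U hR hdom hder hker hGL hV2 hV3 hW hAvg hSeq hComm hE h hb hy
    have hS : ∀ f, y * S f = S f * y := by
      intro f
      -- every vector `R Ω` is in the domain
      have hdomf : ∃ γ, Gen U f Ω γ := by
        refine hdom h.U_zero h.U_add h.U_star f Ω (fun r => ph (‖f‖ * r))
          (fun r => (-((‖f‖ * r : ℝ) : ℂ) * ph (‖f‖ * r)) * (‖f‖ : ℂ))
          (fun r => (((((‖f‖ * r : ℝ) : ℂ)) ^ 2 - 1) * ph (‖f‖ * r)) * (‖f‖ : ℂ) * (‖f‖ : ℂ))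
          (fun r => ?_) (fun r => ?_) (fun r => ?_) ?_
        · have h1 : inner ℂ Ω (U (r • f) Ω) = tr Ω (U (r • f)) := rfl
          rw [h1, h.gauss, ph, norm_smul, Real.norm_eq_abs, mul_pow, sq_abs]
          congr 3
          ring
        · have h1 : HasDerivAt (fun x : ℝ => ‖f‖ * x) ‖f‖ r := by
            simpa using (hasDerivAt_id r).const_mul ‖f‖
          have h2 := (hasDerivAt_ph (‖f‖ * r)).scomp r h1
          refine h2.congr_deriv ?_
          rw [Complex.real_smul]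
          ring
        · have h1 : HasDerivAt (fun x : ℝ => ‖f‖ * x) ‖f‖ r := by
            simpa using (hasDerivAt_id r).const_mul ‖f‖
          have h2 := ((hasDerivAt_ph1 (‖f‖ * r)).scomp r h1).mul_const (‖f‖ : ℂ)
          refine h2.congr_deriv ?_
          rw [Complex.real_smul]
          ring
        · have h1 := continuous_ph
          have : Continuous (fun r : ℝ => (((((‖f‖ * r : ℝ) : ℂ)) ^ 2 - 1) * ph (‖f‖ * r)) *
              (‖f‖ : ℂ) * (‖f‖ : ℂ)) := by fun_prop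
          exact this.continuousAt
      obtain ⟨γ, hγ⟩ := hdomf
      have hα : (((Real.sqrt (1 - b) : ℝ) : ℂ)) ≠ 0 := by
        have : Real.sqrt (1 - b) ≠ 0 := (Real.sqrt_pos.2 (by linarith)).ne'
        exact_mod_cast this
      have h1 : ∀ R : 𝓗 →L[ℂ] 𝓗, (∀ z ∈ M, R * z = z * R) →
          y (S f (R Ω)) = S f (y (R Ω)) := by
        intro R hRM
        have hRU : ∀ g, R * U g = U g * R := fun g => hRM _ (h.U_mem g)
        have h2 : Gen U f (R Ω) (R γ) := hγ.map R hRU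
        obtain ⟨ζ, hζ, hζ2⟩ := hy f _ _ ⟨R γ, h2, rfl⟩
        have h3 : ζ = y (R γ) := hζ.unique (h2.map y hU)
        rw [h3, map_add, map_smul, map_smul] at hζ2
        exact smul_right_injective _ hα (add_right_cancel hζ2)
      have hcl : Dense {ξ : 𝓗 | ∃ a ∈ M, ∃ R : 𝓗 →L[ℂ] 𝓗,
          (R Ω = a Ω ∧ ∀ x ∈ M, R * x = x * R) ∧ ξ = R Ω} := dense_R hR h
      have heq : Set.EqOn (fun ξ => y (S f ξ)) (fun ξ => S f (y ξ)) Set.univ := by
        rw [← hcl.closure_eq]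
        refine Set.EqOn.closure ?_ (by fun_prop) (by fun_prop)
        rintro ξ ⟨a, -, R, ⟨-, hRM⟩, rfl⟩
        exact h1 R hRM
      ext ξ
      exact heq (Set.mem_univ ξ)
    rw [Set.mem_centralizer_iff]
    rintro z (⟨f, rfl⟩ | ⟨f, rfl⟩)
    · exact (hS f).symm
    · exact (hU f).symm
  · intro y hy f ξ η hξ
    rw [Set.mem_centralizer_iff] at hy
    exact hξ.map y (fun g => (hy _ (Or.inr ⟨g, rfl⟩)).symm) (fun g => (hy _ (Or.inl ⟨g, rfl⟩)).symm)

end Pool.Agent.Y325.BG
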