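import Pool.Agent.Y325.BG.Base

/-!
# The `b`-Gaussian von Neumann algebras: the vectors `g_i Ω`, `g_0 g_i Ω`, `g_0 g_i² Ω`
-/

set_option autoImplicit false

open Filter Topology

namespace Pool.Agent.Y325.BG

universe u v

variable {𝓗 : Type v} [NormedAddCommGroup 𝓗] [InnerProductSpace ℂ 𝓗] [CompleteSpace 𝓗]
variable {E : Type u} [NormedAddCommGroup E] [InnerProductSpace ℝ E]
variable {M : VonNeumannAlgebra 𝓗} {Ω : 𝓗} {S U : E → 𝓗 →L[ℂ] 𝓗}

/-- the Gaussian and its first two derivatives -/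
noncomputable def ph (r : ℝ) : ℂ := ((Real.exp (-r ^ 2 / 2) : ℝ) : ℂ)

theorem ph_zero : ph 0 = 1 := by simp [ph]

theorem hasDerivAt_ph (r : ℝ) : HasDerivAt ph (-(r : ℂ) * ph r) r := by
  have h1 : HasDerivAt (fun x : ℝ => Real.exp (-x ^ 2 / 2)) (Real.exp (-r ^ 2 / 2) * (-r)) r := by
    have h2 : HasDerivAt (fun x : ℝ => -x ^ 2 / 2) (-r) r := by
      have h3 := (((hasDerivAt_id r).pow 2).neg).div_const 2
      refine h3.congr_deriv ?_
      simp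
      ring
    exact h2.exp
  have h4 := h1.ofReal_comp
  refine h4.congr_deriv ?_
  rw [ph]
  push_cast
  ring

theorem hasDerivAt_ph1 (r : ℝ) :
    HasDerivAt (fun x : ℝ => -(x : ℂ) * ph x) (((r : ℂ) ^ 2 - 1) * ph r) r := by
  have h1 : HasDerivAt (fun x : ℝ => -(x : ℂ)) (-1) r := by
    have := ((hasDerivAt_id r).ofReal_comp).fun_neg
    simpa using this
  refine (h1.mul (hasDerivAt_ph r)).congr_deriv ?_
  ring

theorem continuous_ph : Continuous ph := by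
  unfold ph
  fun_prop

theorem continuousAt_ph2 : ContinuousAt (fun r : ℝ => ((r : ℂ) ^ 2 - 1) * ph r) 0 := by
  have : Continuous (fun r : ℝ => ((r : ℂ) ^ 2 - 1) * ph r) := by
    have := continuous_ph
    fun_prop
  exact this.continuousAt

theorem commU (h : Realisation M Ω S U) (f g : E) : U f * U g = U g * U f := by
  rw [← h.U_add, ← h.U_add, add_comm]

/-- matrix coefficients of `g_e Ω` in orthogonal directions -/
theorem coeff_gamma (hker : StmKer.{u, v}) (h : Realisation M Ω S U) {e f : E} (he : ‖e‖ = 1)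
    (hef : inner ℝ e f = 0) {γ : 𝓗} (hγ : Gen U e Ω γ) :
    inner ℂ γ (U f γ) = ((Real.exp (-‖f‖ ^ 2 / 2) : ℝ) : ℂ) := by
  have h0 := (hker h.U_zero h.U_add h.U_star hγ hγ (U f) (fun t => commU h _ _)
    (fun r => ((Real.exp (-‖f‖ ^ 2 / 2) : ℝ) : ℂ) * ph r)
    (fun r => ((Real.exp (-‖f‖ ^ 2 / 2) : ℝ) : ℂ) * (-(r : ℂ) * ph r))
    (fun r => ((Real.exp (-‖f‖ ^ 2 / 2) : ℝ) : ℂ) * (((r : ℂ) ^ 2 - 1) * ph r)) ?_
    (fun r => (hasDerivAt_ph r).const_mul _) (fun r => (hasDerivAt_ph1 r).const_mul _) 0).2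
  · simpa [h.U_zero, ph_zero] using h0
  · intro r
    have h1 : inner ℂ Ω (U f (U (r • e) Ω)) = tr Ω (U (f + r • e)) := by
      rw [h.U_add]; rfl
    rw [h1, h.gauss, ph, ← Complex.ofReal_mul, ← Real.exp_add]
    congr 2
    have h2 : ‖f + r • e‖ ^ 2 = ‖f‖ ^ 2 + r ^ 2 := by
      rw [norm_add_sq_real, inner_smul_right, real_inner_comm, hef, norm_smul, he, mul_one,
        Real.norm_eq_abs, sq_abs]
      ring
    rw [h2]; ring

theorem norm_smul_sub {e : ℕ → E} (he : Orthonormal ℝ e) {i j : ℕ} (hij : i ≠ j) (t s : ℝ) :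
    ‖s • e j - t • e i‖ ^ 2 = t ^ 2 + s ^ 2 := by
  rw [norm_sub_sq_real, inner_smul_left, inner_smul_right, he.2 (Ne.symm hij), norm_smul,
    norm_smul, he.1, he.1]
  simp
  ring

theorem norm_smul_sub' {e : ℕ → E} (he : Orthonormal ℝ e) (i : ℕ) (t s : ℝ) :
    ‖s • e i - t • e i‖ ^ 2 = (s - t) ^ 2 := by
  rw [← sub_smul, norm_smul, he.1, mul_one, Real.norm_eq_abs, sq_abs]

/-- the vectors at the base `Ω` -/
theorem exists_gamma (hGL : StmGL.{u, v}) (h : Realisation M Ω S U) {e : ℕ → E}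
    (he : Orthonormal ℝ e) : ∃ γ : ℕ → 𝓗, (∀ i, Gen U (e i) Ω (γ i)) ∧
      (∀ i, inner ℂ Ω (γ i) = 0) ∧ (∀ i, inner ℂ (γ i) (γ i) = 1) ∧
      (∀ i j, i ≠ j → inner ℂ (γ i) (γ j) = 0) := by
  obtain ⟨γ, θ, h1, -, h3, h4, h5, -⟩ := hGL h.U_zero h.U_add h.U_star e Ω
    (fun i t s => by rw [h.inner_U, norm_smul_sub' he]) (fun i j hij t s => by
      rw [h.inner_U, norm_smul_sub he hij, ← Real.exp_add]
      congr 2
      ring)
  exact ⟨γ, h1, h3, h4, h5⟩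

/-- the vectors at the base `g_0 Ω` -/
theorem exists_rho (hker : StmKer.{u, v}) (hGL : StmGL.{u, v}) (h : Realisation M Ω S U)
    {e : ℕ → E} (he : Orthonormal ℝ e) {γ : ℕ → 𝓗} (hγ : ∀ i, Gen U (e i) Ω (γ i)) :
    ∃ ρ θ : ℕ → 𝓗, (∀ i, Gen U (e (i + 1)) (γ 0) (ρ i)) ∧ (∀ i, Gen U (e (i + 1)) (ρ i) (θ i)) ∧
      (∀ i, inner ℂ (γ 0) (ρ i) = 0) ∧ (∀ i, inner ℂ (ρ i) (ρ i) = 1) ∧
      (∀ i j, i ≠ j → inner ℂ (ρ i) (ρ j) = 0) ∧
      (∀ i j, i ≠ j → inner ℂ (θ i - γ 0) (θ j - γ 0) = 0) ∧ (∀ i, ‖θ i - γ 0‖ ≤ 2) := by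
  have key : ∀ i j : ℕ, ∀ t s : ℝ, inner ℂ (U (t • e (i + 1)) (γ 0)) (U (s • e (j + 1)) (γ 0)) =
      ((Real.exp (-‖s • e (j + 1) - t • e (i + 1)‖ ^ 2 / 2) : ℝ) : ℂ) := by
    intro i j t s
    rw [← coeff_gamma hker h (he.1 0) ?_ (hγ 0)]
    · have h2 : U (s • e (j + 1) - t • e (i + 1)) = star (U (t • e (i + 1))) * U (s • e (j + 1)) := by
        rw [h.U_star, ← h.U_add]
        congr 1
        abel
      rw [h2, ContinuousLinearMap.star_eq_adjoint, mul_apply_eq_comp,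
        ContinuousLinearMap.adjoint_inner_right]
    · rw [inner_sub_right, inner_smul_right, inner_smul_right, he.2 (by omega), he.2 (by omega)]
      simp
  exact hGL h.U_zero h.U_add h.U_star (fun i => e (i + 1)) (γ 0)
    (fun i t s => by rw [key, norm_smul_sub' he (i + 1)]) (fun i j hij t s => by
      rw [key, norm_smul_sub he (by omega), ← Real.exp_add]
      congr 2
      ring)

/-- vectors `a Ω` with the right multiplication operator -/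
theorem dense_R (hR : StmR.{v}) (h : Realisation M Ω S U) :
    Dense {ξ : 𝓗 | ∃ a ∈ M, ∃ R : 𝓗 →L[ℂ] 𝓗, (R Ω = a Ω ∧ ∀ x ∈ M, R * x = x * R) ∧ ξ = R Ω} := by
  refine h.cyclic.mono ?_
  rintro ξ ⟨a, ha, rfl⟩
  obtain ⟨R, h1, h2⟩ := hR h.cyclic h.tracial ha
  exact ⟨a, ha, R, ⟨h1, h2⟩, h1.symm⟩

theorem eq_of_dense {D : Set 𝓗} (hD : Dense D) {x y : 𝓗} (hxy : ∀ z ∈ D, inner ℂ z x = inner ℂ z y) :
    x = y := by
  have h1 : ∀ z, inner ℂ z x = inner ℂ z y := by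
    intro z
    have hc : IsClosed {z : 𝓗 | inner ℂ z x = inner ℂ z y} :=
      isClosed_eq (by fun_prop) (by fun_prop)
    exact hc.closure_subset_iff.2 (fun z hz => hxy z hz) (hD z)
  exact ext_inner_left ℂ h1

/-- `g_0 (g_i Ω) = g_i (g_0 Ω)` -/
theorem gen_gamma_rho (hR : StmR.{v}) (hdom : StmDom.{u, v}) (hker : StmKer.{u, v})
    (h : Realisation M Ω S U) {e f : E} (he : ‖e‖ = 1) (hf : ‖f‖ = 1) (hef : inner ℝ e f = 0)
    {γe γf ρ : 𝓗} (h1 : Gen U e Ω γe) (h2 : Gen U f Ω γf) (h3 : Gen U f γe ρ) :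
    Gen U e γf ρ := by
  obtain ⟨ρ', hρ'⟩ := hdom h.U_zero h.U_add h.U_star e γf ph (fun r => -(r : ℂ) * ph r)
    (fun r => ((r : ℂ) ^ 2 - 1) * ph r) (fun r => by
      rw [coeff_gamma hker h hf (by rw [inner_smul_right, real_inner_comm, hef, mul_zero]) h2, ph,
        norm_smul, he, mul_one, Real.norm_eq_abs, sq_abs]) hasDerivAt_ph hasDerivAt_ph1
    continuousAt_ph2
  have hcomm : ∀ t : ℝ, Gen U e (((t : ℂ) * Complex.I)⁻¹ • (U (t • f) Ω - Ω))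
      (((t : ℂ) * Complex.I)⁻¹ • (U (t • f) γe - γe)) := by
    intro t
    have ha := (h1.map (U (t • f)) (fun g => commU h _ _)).add (h1.smul (-1))
    have hb := ha.smul (((t : ℂ) * Complex.I)⁻¹)
    simpa [sub_eq_add_neg] using hb
  have heq : ρ' = ρ := by
    refine eq_of_dense (dense_R hR h) ?_
    rintro z ⟨a, -, R, ⟨-, hRM⟩, rfl⟩
    have hRU : ∀ g, R * U g = U g * R := fun g => hRM _ (h.U_mem g)
    have h4 : Gen U e (R Ω) (R γe) := h1.map R hRU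
    have h5 : inner ℂ (R Ω) ρ' = inner ℂ (R γe) γf := hρ'.symm h.U_star h4
    have h6 : Tendsto (fun t : ℝ => inner ℂ (R Ω) (((t : ℂ) * Complex.I)⁻¹ • (U (t • f) γe - γe)))
        (𝓝[≠] 0) (𝓝 (inner ℂ (R Ω) ρ)) := Tendsto.inner tendsto_const_nhds h3
    have h7 : Tendsto (fun t : ℝ => inner ℂ (R γe) (((t : ℂ) * Complex.I)⁻¹ • (U (t • f) Ω - Ω)))
        (𝓝[≠] 0) (𝓝 (inner ℂ (R γe) γf)) := Tendsto.inner tendsto_const_nhds h2
    have h8 : inner ℂ (R Ω) ρ = inner ℂ (R γe) γf :=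
      tendsto_nhds_unique h6 (h7.congr fun t => ((hcomm t).symm h.U_star h4).symm)
    rw [h5, h8]
  rw [← heq]
  exact hρ'

end Pool.Agent.Y325.BG
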